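import Pool.Agent.J6H54.CH.Stm

/-!
# Peak decomposition of a shortest word in a conjugacy class of exponent `0`

Adaption of `Pool/Agent/J6H94/CG/M20.lean` (helper94).
-/

set_option autoImplicit false
set_option linter.unusedSectionVars false

namespace Pool.Agent.J6H88.CH23

open Pool.Agent.J6H54.CH

variable {Λ : Type} [AddCommGroup Λ] {σ : Λ ≃ₗ[ℤ] Λ} {T : Finset (Λ × ℤ)}

theorem rinv_append (a b : List (Λ × ℤ)) : rinv σ (a ++ b) = rinv σ b ++ rinv σ a := by
  simp [rinv]

theorem rinv_rinv (v : List (Λ × ℤ)) : rinv σ (rinv σ v) = v := by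
  induction v with
  | nil => rfl
  | cons a v ih =>
    have h1 : rinv σ (a :: v) = rinv σ v ++ [inv σ a] := by simp [rinv]
    have h2 : rinv σ [inv σ a] = [inv σ (inv σ a)] := by simp [rinv]
    rw [h1, rinv_append, ih, h2, inv_inv']
    rfl

theorem ht_rinv (v : List (Λ × ℤ)) : ht (rinv σ v) = - ht v := by
  rw [← val_snd (σ := σ), val_rinv, ← val_snd (σ := σ) v]
  rfl

theorem lowX_eq (c : ℤ) : ∀ (w : List (Λ × ℤ)) (s : ℤ),
    (∀ i < w.length, s + ht (w.take i) < c) → lowX σ c s w = (σ ^ s) (val σ w).1 := by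
  intro w
  induction w with
  | nil =>
    intro s _
    simp [lowX]
  | cons a w ih =>
    intro s h
    have h0 : s < c := by
      have := h 0 (by simp)
      simpa using this
    have h1 := ih (s + a.2) (fun i hi => by
      have := h (i + 1) (by simpa using hi)
      rw [List.take_succ_cons, ht_cons] at this
      linarith)
    rw [lowX, if_pos h0, h1, val_cons, mul_fst, pow_add_apply, map_add]

theorem highX_eq (c : ℤ) : ∀ (w : List (Λ × ℤ)) (s : ℤ),
    (∀ i < w.length, c ≤ s + ht (w.take i)) → highX σ c s w = (σ ^ s) (val σ w).1 := by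
  intro w
  induction w with
  | nil =>
    intro s _
    simp [highX]
  | cons a w ih =>
    intro s h
    have h0 : ¬ s < c := by
      have := h 0 (by simp)
      simpa using this
    have h1 := ih (s + a.2) (fun i hi => by
      have := h (i + 1) (by simpa using hi)
      rw [List.take_succ_cons, ht_cons] at this
      linarith)
    rw [highX, if_neg h0, h1, val_cons, mul_fst, pow_add_apply, map_add]

/-- the first coordinate and the second coordinate of a conjugate -/
theorem cj_zero {x : Λ} {b : Λ × ℤ} (h : Cj σ (x, 0) b) : b.2 = 0 ∧ ∃ i : ℤ, b.1 = (σ ^ i) x := by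
  obtain ⟨c, hc⟩ := h
  have h1 := congrArg Prod.fst hc
  have h2 := congrArg Prod.snd hc
  simp only [mul_fst, mul_snd, add_zero] at h1 h2
  have h3 : b.2 = 0 := by omega
  rw [h3, pow_zero_apply] at h1
  refine ⟨h3, c.2, ?_⟩
  rw [add_comm b.1] at h1
  exact (add_left_cancel h1).symm

/-- rotation -/
theorem cj_rot {x : Λ} {a b : List (Λ × ℤ)}
    (h : Cj σ (x, 0) (val σ (a ++ b))) : Cj σ (x, 0) (val σ (b ++ a)) := by
  obtain ⟨c, hc2⟩ := h
  refine ⟨mul σ (inv σ (val σ a)) c, ?_⟩
  have e1 : mul σ (mul σ (inv σ (val σ a)) c) (x, 0) = mul σ (val σ b) c := by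
    rw [mul_assoc', hc2, val_append, ← mul_assoc', ← mul_assoc', J6H54.CH.inv_mul', one_mul']
  have e2 : mul σ (val σ (b ++ a)) (mul σ (inv σ (val σ a)) c) = mul σ (val σ b) c := by
    rw [val_append, mul_assoc', ← mul_assoc' (val σ a), mul_inv', one_mul']
  rw [e1, e2]

theorem exists_min (w : List (Λ × ℤ)) : ∃ a b : List (Λ × ℤ), w = a ++ b ∧
    ∀ c d : List (Λ × ℤ), w = c ++ d → ht a ≤ ht c := by
  obtain ⟨n, -, hn⟩ := Finset.exists_min_image (Finset.range (w.length + 1))
    (fun i => ht (w.take i)) ⟨0, by simp⟩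
  refine ⟨w.take n, w.drop n, (List.take_append_drop n w).symm, fun c d h => ?_⟩
  have h1 := hn c.length (by rw [Finset.mem_range, h, List.length_append]; omega)
  have e : w.take c.length = c := by
    rw [h]
    exact List.take_left' rfl
  have h2 : ht (w.take n) ≤ ht (w.take c.length) := h1
  rwa [e] at h2

theorem exists_max (w : List (Λ × ℤ)) : ∃ a b : List (Λ × ℤ), w = a ++ b ∧
    ∀ c d : List (Λ × ℤ), w = c ++ d → ht c ≤ ht a := by
  obtain ⟨n, -, hn⟩ := Finset.exists_max_image (Finset.range (w.length + 1))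
    (fun i => ht (w.take i)) ⟨0, by simp⟩
  refine ⟨w.take n, w.drop n, (List.take_append_drop n w).symm, fun c d h => ?_⟩
  have h1 := hn c.length (by rw [Finset.mem_range, h, List.length_append]; omega)
  have e : w.take c.length = c := by
    rw [h]
    exact List.take_left' rfl
  have h2 : ht (w.take c.length) ≤ ht (w.take n) := h1
  rwa [e] at h2

/-- the bounds for one half -/
theorem half (h9 : S_low) {p q : Λ → ℝ} {κ M C0 : ℝ} (hH : Hyp σ p q κ M C0) {R P : ℕ}
    (hB : Bd σ T p q R)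
    (hW : ∀ (j s : ℤ) (w : List (Λ × ℤ)), Geo σ T w → vis j R s w ≤ P) (H : ℕ)
    (u : List (Λ × ℤ)) (hu : Geo σ T u)
    (hh : ∀ c d : List (Λ × ℤ), u = c ++ d → 0 ≤ ht c ∧ ht c ≤ H) :
    (val σ u).1 ∈ bx σ p q (M * (P * R / (1 - κ))) H := by
  have hh' : ∀ i, 0 ≤ ht (u.take i) ∧ ht (u.take i) ≤ H := fun i =>
    hh _ _ (List.take_append_drop i u).symm
  have hB0 : 0 ≤ (P * R / (1 - κ) : ℝ) := by
    have := hH.κ_lt
    exact div_nonneg (by positivity) (by linarith)
  have hM := hH.one_le_M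
  have hle : (P * R / (1 - κ) : ℝ) ≤ M * (P * R / (1 - κ)) := by nlinarith
  rw [mem_bx hH]
  constructor
  · have h := (h9 Λ σ T p q κ M C0 R P hH hB 0 0 u hu.1 (fun j => hW j 0 u hu)).2
    rw [highX_eq _ u 0 (fun i _ => by
      have := (hh' i).1
      omega), neg_zero, pow_zero_apply, pow_zero_apply] at h
    exact h.trans hle
  · have h := (h9 Λ σ T p q κ M C0 R P hH hB ((H : ℤ) + 1) 0 u hu.1 (fun j => hW j 0 u hu)).1
    rw [lowX_eq _ u 0 (fun i _ => by
      have := (hh' i).2
      omega), pow_zero_apply] at h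
    have e : (σ ^ (-(H : ℤ))) (val σ u).1 = σ ((σ ^ (-((H : ℤ) + 1))) (val σ u).1) := by
      have h1 : (-(H : ℤ)) = 1 + -((H : ℤ) + 1) := by ring
      rw [h1, pow_add_apply, zpow_one]
    rw [e]
    exact (hH.p_grow _).trans (mul_le_mul_of_nonneg_left h (by linarith))

theorem m23 (h3 : S_in) (h9 : S_low) (h16 : S_cj) : S_peak := by
  intro Λ _ σ T p q κ M C0 R P hHyp hT hB hW x
  -- a shortest word in the class
  have hne : {n | ∃ b : Λ × ℤ, Cj σ (x, 0) b ∧ len σ T b = n}.Nonempty :=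
    ⟨_, (x, 0), ⟨(0, 0), by rw [one_mul', mul_one']⟩, rfl⟩
  obtain ⟨q', hq1, hq2⟩ := Nat.sInf_mem hne
  have hq2 : len σ T q' = clen σ T (x, 0) := hq2
  obtain ⟨w0, hw0, hval, hlen⟩ := exists_geo hT q'
  obtain ⟨a, b, rfl, hmin⟩ := exists_min w0
  rw [← hval] at hq1
  have hcj : Cj σ (x, 0) (val σ (b ++ a)) := cj_rot hq1
  have h0 : ht a + ht b = 0 := by
    have := (cj_zero hq1).1
    rwa [val_snd, ht_append] at this
  have hWd : Wd T (b ++ a) := hw0.right.append hw0.left
  have hlen' : (b ++ a).length = clen σ T (x, 0) := by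
    rw [← hq2, ← hlen, List.length_append, List.length_append, add_comm]
  have hgeo : Geo σ T (b ++ a) := by
    refine ⟨hWd, le_antisymm (len_le hWd) ?_⟩
    rw [hlen']
    exact Nat.sInf_le ⟨_, hcj, rfl⟩
  have hnn : ∀ c d : List (Λ × ℤ), b ++ a = c ++ d → 0 ≤ ht c := by
    intro c d h
    rcases List.append_eq_append_iff.1 h with ⟨a', h1, h2⟩ | ⟨c', h1, h2⟩
    · have h3 := hmin a' (d ++ b) (by rw [h2, List.append_assoc])
      rw [h1, ht_append]
      linarith
    · have h3 := hmin (a ++ c) c' (by rw [h1, List.append_assoc])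
      rw [ht_append] at h3
      linarith
  obtain ⟨u, v, huv, hmax⟩ := exists_max (b ++ a)
  have hht : ht u + ht v = 0 := by
    have h1 : ht (b ++ a) = 0 := by rw [ht_append]; linarith
    rwa [huv, ht_append] at h1
  rw [huv] at hgeo hcj hlen' hnn hmax
  obtain ⟨H, hH⟩ := Int.eq_ofNat_of_zero_le (hnn u v rfl)
  have hgu : Geo σ T u := hgeo.left hT
  have hgv : Geo σ T v := hgeo.right hT
  have hgr : Geo σ T (rinv σ v) := by
    refine ⟨wd_rinv hT hgv.1, ?_⟩
    rw [val_rinv, len_inv hT, hgv.2, length_rinv]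
  have hhr : ht (rinv σ v) = H := by
    rw [ht_rinv]
    linarith
  have hu := half h9 hHyp hB hW H u hgu (fun c d h => by
    have h1 : u ++ v = c ++ (d ++ v) := by rw [h, List.append_assoc]
    exact ⟨hnn _ _ h1, (hmax _ _ h1).trans (le_of_eq hH)⟩)
  have hv := half h9 hHyp hB hW H (rinv σ v) hgr (fun c d h => by
    have h1 : v = rinv σ d ++ rinv σ c := by
      rw [← rinv_append, ← h, rinv_rinv]
    have h2 : u ++ v = (u ++ rinv σ d) ++ rinv σ c := by rw [h1, List.append_assoc]
    have h4 := hnn _ _ h2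
    have h5 := (hmax _ _ h2).trans (le_of_eq hH)
    have h6 : ht (u ++ rinv σ d) = ht c := by
      have h7 : ht v = ht (rinv σ d) + ht (rinv σ c) := by rw [← ht_append, ← h1]
      rw [ht_rinv c] at h7
      rw [ht_append]
      linarith
    rw [h6] at h4 h5
    exact ⟨h4, h5⟩)
  obtain ⟨-, i, hi⟩ := cj_zero hcj
  have e1 : val σ u = ((val σ u).1, (H : ℤ)) := Prod.ext rfl (by rw [val_snd]; exact hH)
  have e2 : val σ (rinv σ v) = ((val σ (rinv σ v)).1, (H : ℤ)) :=
    Prod.ext rfl (by rw [val_snd]; exact hhr)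
  refine ⟨H, (val σ u).1, (val σ (rinv σ v)).1, i, ?_, ?_, hu, hv⟩
  · rw [← hi, val_append_fst, hH, val_rinv]
    have h8 : (val σ v).2 = -(H : ℤ) := by
      rw [val_snd]
      linarith
    change (val σ u).1 - (-((σ ^ (-(val σ v).2)) (val σ v).1)) = _
    rw [h8, neg_neg, sub_neg_eq_add]
  · rw [← e1, ← e2, hgu.2, hgr.2, length_rinv, ← hlen', List.length_append]

end Pool.Agent.J6H88.CH23
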